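import Mathlib
import Pool.Agent.H68.LCS.Targets

/-! # Row RGN: regularity from a subbase. -/

namespace Pool.Agent.H48.LCS

open Set Filter Topology
open scoped Pointwise
open Pool.Agent.H93.CP Pool.Agent.H7.LP Pool.Agent.H7.LQ Pool.Agent.H68.LCS

theorem pf_RGN : T_RGN := by
  intro F S hS
  let : TopologicalSpace F := TopologicalSpace.generateFrom S
  have key : ∀ O : Set F, TopologicalSpace.GenerateOpen S O → ∀ y ∈ O,
      ∃ t ⊆ O, IsClosed t ∧ t ∈ 𝓝 y := by
    intro O hO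
    induction hO with
    | basic s hs => exact hS s hs
    | univ => intro y _; exact ⟨univ, subset_rfl, isClosed_univ, univ_mem⟩
    | inter s t _ _ ihs iht =>
      intro y hy
      obtain ⟨a, ha1, ha2, ha3⟩ := ihs y hy.1
      obtain ⟨b, hb1, hb2, hb3⟩ := iht y hy.2
      exact ⟨a ∩ b, inter_subset_inter ha1 hb1, ha2.inter hb2, inter_mem ha3 hb3⟩
    | sUnion K _ ih =>
      intro y hy
      obtain ⟨s, hs, hys⟩ := hy
      obtain ⟨a, ha1, ha2, ha3⟩ := ih s hs y hys
      exact ⟨a, ha1.trans (subset_sUnion_of_mem hs), ha2, ha3⟩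
  refine RegularSpace.of_exists_mem_nhds_isClosed_subset (fun y s hs => ?_)
  obtain ⟨O, hOs, hO, hy⟩ := mem_nhds_iff.1 hs
  obtain ⟨t, h1, h2, h3⟩ := key O hO y hy
  exact ⟨t, h3, h2, h1.trans hOs⟩

end Pool.Agent.H48.LCS
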